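import Pool.Agent.Helper27.PHV.Defs

/-!
# MP_8bf717_co, project PHV: one-line roofs, flat roofs, facts and flips
-/

set_option autoImplicit false

open MeasureTheory Set

namespace Pool.Agent.Helper70.PHV

open Pool.Agent.Helper37.PH Pool.Agent.Helper61.PH Pool.Agent.Helper27.PHU
open Pool.Agent.Helper27.PHV

/-! ## Facts -/

theorem W_pos {K : Set (ℝ × ℝ)}
    {b c1 c2 lam rho e1 f1 e2 f2 W T S G H P Q A B X : ℝ}
    (hf : Feat K b c1 c2 lam rho e1 f1 e2 f2)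
    (hR : Red b c1 c2 lam rho e1 f1 e2 f2 W T S G H P Q A B X) : 0 < W := by
  rw [hR.eW]; linarith [hf.lam0, hf.rho0]

theorem pp_pos {T c : ℝ} (hT : 0 < T) (hc : 0 < c) (hc1 : c < 1) : 0 < pp T c := by
  have : 0 < 1 - c := by linarith
  unfold pp
  positivity

theorem gg_nonneg {c lam rho e f : ℝ} (hc : 0 < c) (hc1 : c < 1) (hl : 0 ≤ lam) (hr : 0 ≤ rho)
    (he : 0 ≤ e) (hf : 0 ≤ f) : 0 ≤ gg c lam rho e f := by
  have : 0 < 1 - c := by linarith
  unfold gg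
  positivity

/-- `W (G - P (A - (1 - 1/W))) = 2 f + 2 a lam / (1 - c)` -/
theorem pa_le {a c lam rho e f : ℝ} (ha : 0 < a) (hc : 0 < c) (hc1 : c < 1)
    (hl : 0 ≤ lam) (hr : 0 ≤ rho) (hf : 0 ≤ f) :
    pp (2 * a) c * (xi a c lam rho e f - (1 - 1 / (1 + lam + rho))) ≤ gg c lam rho e f := by
  have hc' : (0 : ℝ) < 1 - c := by linarith
  have hW : (0 : ℝ) < 1 + lam + rho := by linarith
  have key : gg c lam rho e f - pp (2 * a) c * (xi a c lam rho e f - (1 - 1 / (1 + lam + rho))) =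
      (2 * f + 2 * a * lam / (1 - c)) / (1 + lam + rho) := by
    unfold pp xi gg
    field_simp
    ring
  have : 0 ≤ (2 * f + 2 * a * lam / (1 - c)) / (1 + lam + rho) := by positivity
  linarith

/-- `W (T (1 - A) - G) = 2 (a - e) + 2 a lam / c` -/
theorem ta_nonneg {a c lam rho e f : ℝ} (ha : 0 < a) (hc : 0 < c) (hc1 : c < 1)
    (hl : 0 ≤ lam) (hr : 0 ≤ rho) (he : e ≤ a) :
    0 ≤ 2 * a * (1 - xi a c lam rho e f) - gg c lam rho e f := by
  have hc' : (0 : ℝ) < 1 - c := by linarith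
  have hW : (0 : ℝ) < 1 + lam + rho := by linarith
  have key : 2 * a * (1 - xi a c lam rho e f) - gg c lam rho e f =
      (2 * (a - e) + 2 * a * lam / c) / (1 + lam + rho) := by
    unfold xi gg
    field_simp
    ring
  have h1 : 0 ≤ a - e := by linarith
  have : 0 ≤ (2 * (a - e) + 2 * a * lam / c) / (1 + lam + rho) := by positivity
  linarith

/-- `W (T + P A - G) = 2 (a - f) + 2 a rho / (1 - c)`: the mirrored inequality -/
theorem tb_nonneg {a c lam rho e f : ℝ} (ha : 0 < a) (hc : 0 < c) (hc1 : c < 1)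
    (hl : 0 ≤ lam) (hr : 0 ≤ rho) (hf : f ≤ a) :
    0 ≤ 2 * a + pp (2 * a) c * xi a c lam rho e f - gg c lam rho e f := by
  have hc' : (0 : ℝ) < 1 - c := by linarith
  have hW : (0 : ℝ) < 1 + lam + rho := by linarith
  have key : 2 * a + pp (2 * a) c * xi a c lam rho e f - gg c lam rho e f =
      (2 * (a - f) + 2 * a * rho / (1 - c)) / (1 + lam + rho) := by
    unfold xi gg pp
    field_simp
    ring
  have h1 : 0 ≤ a - f := by linarith
  have : 0 ≤ (2 * (a - f) + 2 * a * rho / (1 - c)) / (1 + lam + rho) := by positivity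
  linarith

theorem ga_eq {a c lam rho e f : ℝ} (ha : 0 < a) (hc : 0 < c) (hc1 : c < 1)
    (hl : 0 ≤ lam) (hr : 0 ≤ rho) :
    gg c lam rho e f - pp (2 * a) c * xi a c lam rho e f =
      2 * (f + a * (lam + rho) - a * (rho / (1 - c))) / (1 + lam + rho) := by
  have h1 : (0 : ℝ) < 1 - c := by linarith
  have hW : (0 : ℝ) < 1 + lam + rho := by linarith
  unfold xi gg pp
  field_simp
  ring

/-- the length of the right wall, doubled and divided by the width -/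
theorem wall_right {a b c1 c2 lam rho e1 f1 e2 f2 : ℝ} (ha : 0 < a) (hb : 0 < b)
    (hab : a + b = 1 / 2) (hc1 : 0 < c1) (hc1' : c1 < 1) (hc2 : 0 < c2) (hc2' : c2 < 1)
    (hl : 0 ≤ lam) (hr : 0 ≤ rho) :
    2 / (1 + lam + rho) - 1 + gg c1 lam rho e1 f1 + gg c2 lam rho e2 f2
      - pp (2 * a) c1 * xi a c1 lam rho e1 f1 - pp (2 * b) c2 * xi b c2 lam rho e2 f2 =
    2 * ((1 - a + f1 - a * (rho / (1 - c1))) - (b + b * (rho / (1 - c2)) - f2))
      / (1 + lam + rho) := by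
  have hW : (0 : ℝ) < 1 + lam + rho := by linarith
  have g1 := ga_eq (e := e1) (f := f1) ha hc1 hc1' hl hr
  have g2 := ga_eq (e := e2) (f := f2) hb hc2 hc2' hl hr
  have e1 : 2 / (1 + lam + rho) - 1 + 2 * (f1 + a * (lam + rho) - a * (rho / (1 - c1)))
      / (1 + lam + rho) + 2 * (f2 + b * (lam + rho) - b * (rho / (1 - c2))) / (1 + lam + rho) =
      2 * ((1 - a + f1 - a * (rho / (1 - c1))) - (b + b * (rho / (1 - c2)) - f2))
      / (1 + lam + rho) := by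
    obtain rfl : a = 1 / 2 - b := by linarith
    generalize rho / (1 - c1) = u
    generalize rho / (1 - c2) = v
    field_simp
    ring
  rw [← e1, ← g1, ← g2]
  ring

/-- all signs in one list: `0 < P`, `0 < Q`, `0 ≤ G`, `0 ≤ H`, `0 ≤ X`, the bounds of `A`, `B`
and the mirrored ones -/
theorem facts {K : Set (ℝ × ℝ)}
    {b c1 c2 r1 r2 l1 l2 lam rho e1 f1 e2 f2 W T S G H P Q A B X : ℝ}
    (h : Frame K b c1 c2 r1 r2 l1 l2) (hf : Feat K b c1 c2 lam rho e1 f1 e2 f2)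
    (hR : Red b c1 c2 lam rho e1 f1 e2 f2 W T S G H P Q A B X) :
    0 < P ∧ 0 < Q ∧ 0 ≤ G ∧ 0 ≤ H ∧ 0 ≤ X ∧ P * (A - (1 - 1 / W)) ≤ G ∧
      Q * (B - (1 - 1 / W)) ≤ H ∧ 0 ≤ T * (1 - A) - G ∧ 0 ≤ S * (1 - B) - H ∧
      0 ≤ T + P * A - G ∧ 0 ≤ S + Q * B - H ∧ 0 < T ∧ 0 < S ∧ T + S = 1 ∧ 1 ≤ W := by
  have hb := h.b0
  have ha : 0 < 1 / 2 - b := by linarith [h.b1]
  have e2a : 2 * (1 / 2 - b) = 1 - 2 * b := by ring
  have hl := hf.lam0
  have hr := hf.rho0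
  have q1 := pa_le (e := e1) ha h.c10 h.c11 hl hr hf.f10
  have q2 := pa_le (e := e2) hb h.c20 h.c21 hl hr hf.f20
  have q3 := ta_nonneg (f := f1) ha h.c10 h.c11 hl hr hf.e11
  have q4 := ta_nonneg (f := f2) hb h.c20 h.c21 hl hr hf.e21
  have q5 := tb_nonneg (e := e1) ha h.c10 h.c11 hl hr hf.f11
  have q6 := tb_nonneg (e := e2) hb h.c20 h.c21 hl hr hf.f21
  have q7 := wall_right (e1 := e1) (f1 := f1) (e2 := e2) (f2 := f2) ha hb (by ring)
    h.c10 h.c11 h.c20 h.c21 hl hr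
  have g1 := gg_nonneg h.c10 h.c11 hl hr hf.e10 hf.f10
  have g2 := gg_nonneg h.c20 h.c21 hl hr hf.e20 hf.f20
  have p1 := pp_pos (T := 1 - 2 * b) (by linarith) h.c10 h.c11
  have p2 := pp_pos (T := 2 * b) (by linarith) h.c20 h.c21
  rw [e2a] at q1 q3 q5 q7
  obtain ⟨y, hy⟩ := hf.xr
  have o1 := hf.tr _ hy
  have o2 := hf.br _ hy
  simp only at o1 o2
  have o1' : (1 / 2 - b) * ((1 - (1 + rho)) / (1 - c1)) = -((1 / 2 - b) * (rho / (1 - c1))) := by
    ring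
  have o2' : b * ((1 - (1 + rho)) / (1 - c2)) = -(b * (rho / (1 - c2))) := by ring
  rw [o1'] at o1
  rw [o2'] at o2
  have x0 : 0 ≤ X := by
    rw [hR.eX, hR.eP, hR.eQ, hR.eA, hR.eB, hR.eG, hR.eH, hR.eW, q7]
    apply div_nonneg _ (by linarith)
    linarith
  rw [← hR.eW, ← hR.eA, ← hR.eG, ← hR.eP] at q1
  rw [← hR.eW, ← hR.eB, ← hR.eH, ← hR.eQ] at q2
  rw [← hR.eA, ← hR.eG, ← hR.eT] at q3
  rw [← hR.eB, ← hR.eH, ← hR.eS] at q4
  rw [← hR.eA, ← hR.eG, ← hR.eP, ← hR.eT] at q5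
  rw [← hR.eB, ← hR.eH, ← hR.eQ, ← hR.eS] at q6
  rw [← hR.eG] at g1
  rw [← hR.eH] at g2
  rw [← hR.eP] at p1
  rw [← hR.eQ] at p2
  have hT := hR.eT
  have hS := hR.eS
  refine ⟨p1, p2, g1, g2, x0, q1, q2, q3, q4, q5, q6, ?_, ?_, ?_, ?_⟩
  · rw [hT]; linarith
  · rw [hS]; linarith
  · rw [hT, hS]; ring
  · rw [hR.eW]; linarith

/-! ## Areas -/

/-- the area of the flush floor (over `Y = 1 - y`: of the flush roof) with its own kink -/
theorem flush_area {b c lam rho e f : ℝ} (hb : 0 < b) (hc : 0 < c) (hc1 : c < 1)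
    (hl : 0 ≤ lam) (hr : 0 ≤ rho) :
    (b - e) * ((c - (1 - c) * (c * e / b) + c * ((1 - c) * f / b)) - -lam)
      + -(b / c) * ((c - (1 - c) * (c * e / b) + c * ((1 - c) * f / b)) ^ 2 - (-lam) ^ 2) / 2
      + (b - b / (1 - c) - f) *
        ((1 + rho) - (c - (1 - c) * (c * e / b) + c * ((1 - c) * f / b)))
      + b / (1 - c) * ((1 + rho) ^ 2 - (c - (1 - c) * (c * e / b) + c * ((1 - c) * f / b)) ^ 2) / 2
    = (1 + lam + rho) ^ 2 * b / 2 - (1 + lam + rho) ^ 2 * gg c lam rho e f / 2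
      + (1 + lam + rho) ^ 2 * (pp (2 * b) c * xi b c lam rho e f ^ 2) / 4 := by
  obtain ⟨e', rfl⟩ : ∃ e', e = b * e' := ⟨e / b, by field_simp⟩
  obtain ⟨f', rfl⟩ : ∃ f', f = b * f' := ⟨f / b, by field_simp⟩
  have hc' : (0 : ℝ) < 1 - c := by linarith
  have hW : (0 : ℝ) < 1 + lam + rho := by linarith
  have h1 : c * (b * e') / b = c * e' := by field_simp
  have h2 : (1 - c) * (b * f') / b = (1 - c) * f' := by field_simp
  rw [h1, h2]
  have e3 : (1 + lam + rho) ^ 2 * gg c lam rho (b * e') (b * f') =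
      (1 + lam + rho) * (2 * (c * (b * e') + (1 - c) * (b * f'))) := by
    unfold gg
    field_simp
  have e4 : (1 + lam + rho) ^ 2 * (pp (2 * b) c * xi b c lam rho (b * e') (b * f') ^ 2) =
      2 * b * c / (1 - c) * ((1 - c) * (e' - f') - (1 - c) / c * lam + rho) ^ 2 := by
    unfold pp xi
    field_simp
  rw [e3, e4]
  field_simp
  ring

/-- the area under the flush right roof line on the whole width -/
theorem line_area {a c lam rho e f : ℝ} (ha : 0 < a) (hc : 0 < c) (hc1 : c < 1)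
    (hl : 0 ≤ lam) (hr : 0 ≤ rho) :
    (1 - a + a / (1 - c) + f) * ((1 + rho) - -lam)
      + -(a / (1 - c)) * ((1 + rho) ^ 2 - (-lam) ^ 2) / 2 =
    (1 + lam + rho) - (1 + lam + rho) ^ 2 * a / 2
      + (1 + lam + rho) ^ 2 * gg c lam rho e f / 2
      + (1 + lam + rho) ^ 2 * (pp (2 * a) c * (1 - 2 * xi a c lam rho e f)) / 4 := by
  have hc' : (0 : ℝ) < 1 - c := by linarith
  have hW : (0 : ℝ) < 1 + lam + rho := by linarith
  unfold pp gg xi
  field_simp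
  ring

theorem kink_mem {a c e f : ℝ} (ha : 0 < a) (hc : 0 < c) (hc1 : c < 1)
    (he : 0 ≤ e) (he1 : e ≤ a) (hf : 0 ≤ f) (hf1 : f ≤ a) :
    0 ≤ c - (1 - c) * (c * e / a) + c * ((1 - c) * f / a) ∧
      c - (1 - c) * (c * e / a) + c * ((1 - c) * f / a) ≤ 1 := by
  have hc' : (0 : ℝ) < 1 - c := by linarith
  have h1 : c * e / a ≤ c := by
    rw [div_le_iff₀ ha]
    exact mul_le_mul_of_nonneg_left he1 hc.le
  have h1' : 0 ≤ c * e / a := by positivity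
  have h2 : (1 - c) * f / a ≤ 1 - c := by
    rw [div_le_iff₀ ha]
    exact mul_le_mul_of_nonneg_left hf1 hc'.le
  have h2' : 0 ≤ (1 - c) * f / a := by positivity
  have h3 := mul_le_mul_of_nonneg_left h1 hc'.le
  have h3' := mul_nonneg hc'.le h1'
  have h4 := mul_le_mul_of_nonneg_left h2 hc.le
  have h4' := mul_nonneg hc.le h2'
  constructor <;> nlinarith

/-- any one-line roof over the flush floor -/
theorem cov_line {K : Set (ℝ × ℝ)}
    {b c1 c2 r1 r2 l1 l2 lam rho e1 f1 e2 f2 W T S G H P Q A B X u v V : ℝ}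
    (h : Frame K b c1 c2 r1 r2 l1 l2) (hf : Feat K b c1 c2 lam rho e1 f1 e2 f2)
    (hR : Red b c1 c2 lam rho e1 f1 e2 f2 W T S G H P Q A B X)
    (huv : ∀ q ∈ K, q.2 ≤ u + v * q.1)
    (hV : u * W + v * ((1 + rho) ^ 2 - (-lam) ^ 2) / 2
      - (W ^ 2 * b / 2 - W ^ 2 * H / 2 + W ^ 2 * (Q * B ^ 2) / 4) ≤ V) : Cov K V := by
  have hb := h.b0
  have hc2 := h.c20
  have hc2' : 0 < 1 - c2 := by linarith [h.c21]
  have hl := hf.lam0
  have hr := hf.rho0
  have kB := kink_mem hb hc2 h.c21 hf.e20 hf.e21 hf.f20 hf.f21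
  have fl := flush_area (e := e2) (f := f2) hb hc2 h.c21 hl hr
  rw [← hR.eB, ← hR.eH, ← hR.eQ, ← hR.eW] at fl
  have q2 : 0 ≤ b / c2 * lam := by positivity
  have q3 : 0 ≤ b / (1 - c2) * lam := by positivity
  have q4 : 0 ≤ b / (1 - c2) * rho := by positivity
  have q5 : 0 ≤ b / c2 * rho := by positivity
  have w2 : b ≤ b / c2 := by
    rw [le_div_iff₀ hc2]
    nlinarith [h.c21]
  have w3 : b ≤ b / (1 - c2) := by
    rw [le_div_iff₀ hc2']
    nlinarith [h.c20]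
  obtain ⟨yl, hyl⟩ := hf.xl
  obtain ⟨yr, hyr⟩ := hf.xr
  have o1 := huv _ hyl
  have o2 := hf.bl _ hyl
  have o3 := huv _ hyr
  have o4 := hf.br _ hyr
  simp only at o1 o2 o3 o4
  have o2' : b * (-lam / c2) = -(b / c2 * lam) := by ring
  have o4' : b * ((1 - (1 + rho)) / (1 - c2)) = -(b / (1 - c2) * rho) := by ring
  rw [o2'] at o2
  rw [o4'] at o4
  refine Pool.Agent.Helper85.PHU.cov_single (X0 := -lam) (X1 := 1 + rho) (a := u) (b := v)
    (c1 := b - e2) (d1 := -(b / c2)) (c2 := b - b / (1 - c2) - f2) (d2 := b / (1 - c2))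
    (q := c2 - (1 - c2) * (c2 * e2 / b) + c2 * ((1 - c2) * f2 / b))
    (by linarith) ?_ ?_ ?_ ?_ ?_ (by linarith only [kB.1, hl]) (by linarith only [kB.2, hr]) ?_
  · intro z hz
    refine ⟨hf.hl z hz, hf.hr z hz, huv z hz, ?_, ?_⟩
    · have := hf.bl z hz
      have e : b / c2 * z.1 = b * (z.1 / c2) := by ring
      linarith
    · have := hf.br z hz
      have e : b / (1 - c2) * z.1 = b / (1 - c2) - b * ((1 - z.1) / (1 - c2)) := by
        field_simp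
        ring
      linarith
  · linarith only [hf.e21, hf.f20, q2, q3, w3]
  · linarith only [hf.f21, hf.e20, q4, q5, w2]
  · linarith only [o1, o2]
  · linarith only [o3, o4]
  · have hW := hR.eW
    have e0 : u * (1 + rho - -lam) = u * W := by rw [hW]; ring
    rw [e0]
    generalize c2 - (1 - c2) * (c2 * e2 / b) + c2 * ((1 - c2) * f2 / b) = q at fl ⊢
    linarith only [fl, hV]

/-- one roof line: the flush right line on the whole width, over the flush floor -/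
theorem cov_roof1 {K : Set (ℝ × ℝ)}
    {b c1 c2 r1 r2 l1 l2 lam rho e1 f1 e2 f2 W T S G H P Q A B X : ℝ}
    (h : Frame K b c1 c2 r1 r2 l1 l2) (hf : Feat K b c1 c2 lam rho e1 f1 e2 f2)
    (hR : Red b c1 c2 lam rho e1 f1 e2 f2 W T S G H P Q A B X) :
    Cov K (ar W (G + H) (P * (1 - 2 * A) - Q * B ^ 2)) := by
  have ha : 0 < 1 / 2 - b := by linarith [h.b1]
  have hc1' : 0 < 1 - c1 := by linarith [h.c11]
  have la := line_area (e := e1) (f := f1) ha h.c10 h.c11 hf.lam0 hf.rho0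
  rw [show 2 * (1 / 2 - b) = 1 - 2 * b by ring, ← hR.eA, ← hR.eG, ← hR.eP, ← hR.eW] at la
  refine cov_line (u := 1 - (1 / 2 - b) + (1 / 2 - b) / (1 - c1) + f1)
    (v := -((1 / 2 - b) / (1 - c1))) h hf hR ?_ ?_
  · intro q hq
    have := hf.tr q hq
    have e : (1 / 2 - b) / (1 - c1) * q.1 =
        (1 / 2 - b) / (1 - c1) - (1 / 2 - b) * ((1 - q.1) / (1 - c1)) := by
      field_simp
      ring
    linarith
  · have hW := hR.eW
    have e0 : ((1 + rho) - -lam) = W := by rw [hW]; ring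
    rw [e0] at la
    unfold ar
    linarith only [la]

/-- the flat roof over the flush floor -/
theorem cov_flat {K : Set (ℝ × ℝ)}
    {b c1 c2 r1 r2 l1 l2 lam rho e1 f1 e2 f2 W T S G H P Q A B X : ℝ}
    (h : Frame K b c1 c2 r1 r2 l1 l2) (hf : Feat K b c1 c2 lam rho e1 f1 e2 f2)
    (hR : Red b c1 c2 lam rho e1 f1 e2 f2 W T S G H P Q A B X) :
    Cov K (ar W (G + H) (T - 2 * G - Q * B ^ 2)) := by
  refine cov_line (u := 1) (v := 0) h hf hR ?_ ?_
  · intro q hq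
    have := h.top q hq
    linarith
  · rw [hR.eT]
    unfold ar
    linarith only []

/-! ## Flips -/

theorem feat_flipX {K : Set (ℝ × ℝ)} {b c1 c2 lam rho e1 f1 e2 f2 : ℝ}
    (hf : Feat K b c1 c2 lam rho e1 f1 e2 f2) :
    Feat (flipX K) b (1 - c1) (1 - c2) rho lam f1 e1 f2 e2 where
  lam0 := hf.rho0
  rho0 := hf.lam0
  e10 := hf.f10
  e11 := hf.f11
  f10 := hf.e10
  f11 := hf.e11
  e20 := hf.f20
  e21 := hf.f21
  f20 := hf.e20
  f21 := hf.e21
  hl := by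
    rintro _ ⟨q, hq, rfl⟩
    have := hf.hr q hq
    show -rho ≤ 1 - q.1
    linarith
  hr := by
    rintro _ ⟨q, hq, rfl⟩
    have := hf.hl q hq
    show 1 - q.1 ≤ 1 + lam
    linarith
  tl := by
    rintro _ ⟨q, hq, rfl⟩
    exact hf.tr q hq
  tr := by
    rintro _ ⟨q, hq, rfl⟩
    have := hf.tl q hq
    show q.2 ≤ b + 1 / 2 + (1 / 2 - b) * ((1 - (1 - q.1)) / (1 - (1 - c1))) + e1
    rw [sub_sub_cancel, sub_sub_cancel]
    exact this
  bl := by
    rintro _ ⟨q, hq, rfl⟩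
    exact hf.br q hq
  br := by
    rintro _ ⟨q, hq, rfl⟩
    have := hf.bl q hq
    show b - b * ((1 - (1 - q.1)) / (1 - (1 - c2))) - e2 ≤ q.2
    rw [sub_sub_cancel, sub_sub_cancel]
    exact this
  xl := by
    obtain ⟨y, hy⟩ := hf.xr
    exact ⟨y, _, hy, by ext <;> simp⟩
  xr := by
    obtain ⟨y, hy⟩ := hf.xl
    exact ⟨y, _, hy, by ext <;> simp⟩
  xtl := by
    obtain ⟨x, h1, h2, h3⟩ := hf.xtr
    exact ⟨1 - x, by linarith, by linarith, _, h3, rfl⟩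
  xtr := by
    obtain ⟨x, h1, h2, h3⟩ := hf.xtl
    refine ⟨1 - x, by linarith, by linarith, _, h3, ?_⟩
    rw [sub_sub_cancel, sub_sub_cancel]
  xbl := by
    obtain ⟨x, h1, h2, h3⟩ := hf.xbr
    exact ⟨1 - x, by linarith, by linarith, _, h3, rfl⟩
  xbr := by
    obtain ⟨x, h1, h2, h3⟩ := hf.xbl
    refine ⟨1 - x, by linarith, by linarith, _, h3, ?_⟩
    rw [sub_sub_cancel, sub_sub_cancel]

theorem feat_flipY {K : Set (ℝ × ℝ)} {b c1 c2 lam rho e1 f1 e2 f2 : ℝ}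
    (hf : Feat K b c1 c2 lam rho e1 f1 e2 f2) :
    Feat (flipY K) (1 / 2 - b) c2 c1 lam rho e2 f2 e1 f1 where
  lam0 := hf.lam0
  rho0 := hf.rho0
  e10 := hf.e20
  e11 := by linarith [hf.e21]
  f10 := hf.f20
  f11 := by linarith [hf.f21]
  e20 := hf.e10
  e21 := hf.e11
  f20 := hf.f10
  f21 := hf.f11
  hl := by
    rintro _ ⟨q, hq, rfl⟩
    exact hf.hl q hq
  hr := by
    rintro _ ⟨q, hq, rfl⟩
    exact hf.hr q hq
  tl := by
    rintro _ ⟨q, hq, rfl⟩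
    have := hf.bl q hq
    show 1 - q.2 ≤ 1 / 2 - b + 1 / 2 + (1 / 2 - (1 / 2 - b)) * (q.1 / c2) + e2
    rw [sub_sub_cancel]
    linarith
  tr := by
    rintro _ ⟨q, hq, rfl⟩
    have := hf.br q hq
    show 1 - q.2 ≤ 1 / 2 - b + 1 / 2 + (1 / 2 - (1 / 2 - b)) * ((1 - q.1) / (1 - c2)) + f2
    rw [sub_sub_cancel]
    linarith
  bl := by
    rintro _ ⟨q, hq, rfl⟩
    have := hf.tl q hq
    show 1 / 2 - b - (1 / 2 - b) * (q.1 / c1) - e1 ≤ 1 - q.2
    linarith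
  br := by
    rintro _ ⟨q, hq, rfl⟩
    have := hf.tr q hq
    show 1 / 2 - b - (1 / 2 - b) * ((1 - q.1) / (1 - c1)) - f1 ≤ 1 - q.2
    linarith
  xl := by
    obtain ⟨y, hy⟩ := hf.xl
    exact ⟨1 - y, _, hy, rfl⟩
  xr := by
    obtain ⟨y, hy⟩ := hf.xr
    exact ⟨1 - y, _, hy, rfl⟩
  xtl := by
    obtain ⟨x, h1, h2, h3⟩ := hf.xbl
    refine ⟨x, h1, h2, _, h3, ?_⟩
    ext
    · rfl
    · show 1 - (b - b * (x / c2) - e2) = 1 / 2 - b + 1 / 2 + (1 / 2 - (1 / 2 - b)) * (x / c2) + e2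
      ring
  xtr := by
    obtain ⟨x, h1, h2, h3⟩ := hf.xbr
    refine ⟨x, h1, h2, _, h3, ?_⟩
    ext
    · rfl
    · show 1 - (b - b * ((1 - x) / (1 - c2)) - f2) =
        1 / 2 - b + 1 / 2 + (1 / 2 - (1 / 2 - b)) * ((1 - x) / (1 - c2)) + f2
      ring
  xbl := by
    obtain ⟨x, h1, h2, h3⟩ := hf.xtl
    refine ⟨x, h1, h2, _, h3, ?_⟩
    ext
    · rfl
    · show 1 - (b + 1 / 2 + (1 / 2 - b) * (x / c1) + e1) =
        1 / 2 - b - (1 / 2 - b) * (x / c1) - e1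
      ring
  xbr := by
    obtain ⟨x, h1, h2, h3⟩ := hf.xtr
    refine ⟨x, h1, h2, _, h3, ?_⟩
    ext
    · rfl
    · show 1 - (b + 1 / 2 + (1 / 2 - b) * ((1 - x) / (1 - c1)) + f1) =
        1 / 2 - b - (1 / 2 - b) * ((1 - x) / (1 - c1)) - f1
      ring

theorem red_flipY {b c1 c2 lam rho e1 f1 e2 f2 W T S G H P Q A B X : ℝ}
    (hR : Red b c1 c2 lam rho e1 f1 e2 f2 W T S G H P Q A B X) :
    Red (1 / 2 - b) c2 c1 lam rho e2 f2 e1 f1 W S T H G Q P B A X where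
  eW := hR.eW
  eT := by rw [hR.eS]; ring
  eS := by rw [hR.eT]; ring
  eG := hR.eH
  eH := hR.eG
  eP := by rw [hR.eQ]; congr 1; ring
  eQ := by rw [hR.eP]; congr 1; ring
  eA := by rw [hR.eB]; congr 1; ring
  eB := hR.eA
  eX := by rw [hR.eX]; ring

theorem pp_flip {T c : ℝ} (hT : 0 < T) (hc : 0 < c) (hc1 : c < 1) :
    pp T (1 - c) = T ^ 2 / pp T c := by
  have : 0 < 1 - c := by linarith
  unfold pp
  rw [sub_sub_cancel]
  field_simp

theorem xi_flip {a c lam rho e f : ℝ} (ha : 0 < a) (hc : 0 < c) (hc1 : c < 1) (hl : 0 ≤ lam)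
    (hr : 0 ≤ rho) :
    xi a (1 - c) rho lam f e = -(pp (2 * a) c / (2 * a)) * xi a c lam rho e f := by
  have : 0 < 1 - c := by linarith
  have hW : (0 : ℝ) < 1 + lam + rho := by linarith
  have hW' : (0 : ℝ) < 1 + rho + lam := by linarith
  unfold pp xi
  rw [sub_sub_cancel, show 1 + rho + lam = 1 + lam + rho by ring]
  field_simp
  ring

theorem red_flipX {K : Set (ℝ × ℝ)}
    {b c1 c2 r1 r2 l1 l2 lam rho e1 f1 e2 f2 W T S G H P Q A B X : ℝ}
    (h : Frame K b c1 c2 r1 r2 l1 l2) (hf : Feat K b c1 c2 lam rho e1 f1 e2 f2)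
    (hR : Red b c1 c2 lam rho e1 f1 e2 f2 W T S G H P Q A B X) :
    Red b (1 - c1) (1 - c2) rho lam f1 e1 f2 e2 W T S G H (T ^ 2 / P) (S ^ 2 / Q)
      (-(P / T) * A) (-(Q / S) * B) (2 / W - 1 + G + H + T * A + S * B) := by
  have ha : 0 < 1 / 2 - b := by linarith [h.b1]
  have hT : 0 < 1 - 2 * b := by linarith [h.b1]
  have hS : 0 < 2 * b := by linarith [h.b0]
  have e2a : 2 * (1 / 2 - b) = 1 - 2 * b := by ring
  have hP := pp_pos hT h.c10 h.c11
  have hQ := pp_pos hS h.c20 h.c21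
  have hT' : T ≠ 0 := by rw [hR.eT]; exact hT.ne'
  have hS' : S ≠ 0 := by rw [hR.eS]; exact hS.ne'
  have hP' : P ≠ 0 := by rw [hR.eP]; exact hP.ne'
  have hQ' : Q ≠ 0 := by rw [hR.eQ]; exact hQ.ne'
  refine ⟨?_, hR.eT, hR.eS, ?_, ?_, ?_, ?_, ?_, ?_, ?_⟩
  · rw [hR.eW]; ring
  · rw [hR.eG]; unfold gg; congr 1 <;> ring
  · rw [hR.eH]; unfold gg; congr 1 <;> ring
  · rw [pp_flip hT h.c10 h.c11, hR.eT, hR.eP]
  · rw [pp_flip hS h.c20 h.c21, hR.eS, hR.eQ]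
  · rw [xi_flip ha h.c10 h.c11 hf.lam0 hf.rho0, e2a, hR.eT, hR.eP, hR.eA]
  · rw [xi_flip h.b0 h.c20 h.c21 hf.lam0 hf.rho0, hR.eS, hR.eQ, hR.eB]
  · field_simp
    ring

end Pool.Agent.Helper70.PHV
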